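import Pool.Agent.X203.OBS

namespace Pool.Agent.Results.MP_5ab9c0_an.SupremaConverge

open Filter Topology Pool.Agent.X203.OBS
open scoped Classical

/-- `σ` is the supremum (least upper bound) of the net `x` for the order given by the cone `C`. -/
def IsSup {X J : Type*} [AddCommGroup X] (C : Set X) (x : J → X) (σ : X) : Prop :=
  (∀ j, σ - x j ∈ C) ∧ ∀ u : X, (∀ j, u - x j ∈ C) → u - σ ∈ C

/-- Convergent real sequences with the supremum norm: continuous functions on the one-point
compactification of `ℕ`. -/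
abbrev E := C(OnePoint ℕ, ℝ)

theorem summable_aux (f : E) : Summable (fun k : ℕ => (1 / 2 : ℝ) ^ (k + 1) * f (k : OnePoint ℕ)) := by
  apply Summable.of_norm_bounded (g := fun k : ℕ => (1 / 2 : ℝ) ^ (k + 1) * ‖f‖)
  · apply Summable.mul_right
    exact (summable_nat_add_iff 1).2
      (summable_geometric_of_lt_one (by norm_num) (by norm_num : (1 / 2 : ℝ) < 1))
  · intro k
    rw [norm_mul, Real.norm_eq_abs, abs_of_pos (by positivity : (0 : ℝ) < (1 / 2) ^ (k + 1))]
    gcongr
    exact f.norm_coe_le_norm _

/-- `S f = ∑ 2^{-(k+1)} f(k)`. -/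
noncomputable def S (f : E) : ℝ := ∑' k : ℕ, (1 / 2 : ℝ) ^ (k + 1) * f (k : OnePoint ℕ)

/-- the cone `{f : f ≥ 0, S f ≤ 2 f(∞)}` -/
def P : Set E := {f : E | (∀ t, 0 ≤ f t) ∧ S f ≤ 2 * f OnePoint.infty}

theorem tsum_half : ∑' k : ℕ, (1 / 2 : ℝ) ^ (k + 1) = 1 := by
  have := tsum_geometric_two
  have h : ∀ k : ℕ, (1 / 2 : ℝ) ^ (k + 1) = (1 / 2) * (1 / 2) ^ k := fun k => by
    rw [pow_succ]; ring
  simp_rw [h]
  rw [tsum_mul_left, this]
  norm_num

theorem S_add (f g : E) : S (f + g) = S f + S g := by
  unfold S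
  rw [← (summable_aux f).tsum_add (summable_aux g)]
  congr 1
  ext k
  simp [mul_add]

theorem S_smul (c : ℝ) (f : E) : S (c • f) = c * S f := by
  unfold S
  rw [← tsum_mul_left]
  congr 1
  ext k
  simp only [ContinuousMap.coe_smul, Pi.smul_apply, smul_eq_mul]
  ring

theorem S_neg (f : E) : S (-f) = -S f := by
  have := S_smul (-1) f
  simpa using this

theorem S_sub (f g : E) : S (f - g) = S f - S g := by
  rw [sub_eq_add_neg, S_add, S_neg]; ring

theorem abs_S_le (f : E) : |S f| ≤ ‖f‖ := by
  unfold S
  have h1 : ‖∑' k : ℕ, (1 / 2 : ℝ) ^ (k + 1) * f (k : OnePoint ℕ)‖ ≤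
      ∑' k : ℕ, (1 / 2 : ℝ) ^ (k + 1) * ‖f‖ := by
    apply tsum_of_norm_bounded
    · apply Summable.hasSum
      apply Summable.mul_right
      exact (summable_nat_add_iff 1).2
        (summable_geometric_of_lt_one (by norm_num) (by norm_num : (1 / 2 : ℝ) < 1))
    · intro k
      rw [norm_mul, Real.norm_eq_abs, abs_of_pos (by positivity : (0 : ℝ) < (1 / 2) ^ (k + 1))]
      gcongr
      exact f.norm_coe_le_norm _
  rw [tsum_mul_right, tsum_half, one_mul] at h1
  exact h1

theorem continuous_S : Continuous S := by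
  rw [continuous_iff_continuousAt]
  intro f
  rw [ContinuousAt, tendsto_iff_norm_sub_tendsto_zero]
  have h1 : Tendsto (fun g : E => ‖g - f‖) (𝓝 f) (𝓝 0) := by
    have : Tendsto (fun g : E => g) (𝓝 f) (𝓝 f) := tendsto_id
    exact tendsto_iff_norm_sub_tendsto_zero.1 this
  refine squeeze_zero (fun _ => norm_nonneg _) (fun g => ?_) h1
  rw [← S_sub, Real.norm_eq_abs]
  exact abs_S_le _

theorem isClosedCone_P : IsClosedCone P where
  isClosed := by
    have h1 : P = (⋂ t : OnePoint ℕ, {f : E | 0 ≤ f t}) ∩ {f : E | S f ≤ 2 * f OnePoint.infty} := by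
      ext f; simp [P]
    rw [h1]
    apply IsClosed.inter
    · apply isClosed_iInter
      intro t
      exact isClosed_le continuous_const (continuous_eval_const t)
    · exact isClosed_le continuous_S
        (continuous_const.mul (continuous_eval_const _))
  zero_mem := by
    refine ⟨fun t => by simp, ?_⟩
    have : S 0 = 0 := by simpa using S_smul 0 0
    simp [this]
  add_mem := by
    rintro f ⟨hf1, hf2⟩ g ⟨hg1, hg2⟩
    refine ⟨fun t => by simpa using add_nonneg (hf1 t) (hg1 t), ?_⟩
    rw [S_add, ContinuousMap.add_apply]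
    linarith
  smul_mem := by
    rintro c hc f ⟨hf1, hf2⟩
    refine ⟨fun t => by simpa using mul_nonneg hc (hf1 t), ?_⟩
    rw [S_smul, ContinuousMap.smul_apply, smul_eq_mul]
    nlinarith
  pointed := by
    rintro f ⟨hf1, -⟩ ⟨hf2, -⟩
    ext t
    have h1 := hf1 t
    have h2 := hf2 t
    simp only [ContinuousMap.neg_apply] at h2
    simp only [ContinuousMap.zero_apply]
    linarith

theorem isClopen_single (k : ℕ) : IsClopen ({(k : OnePoint ℕ)} : Set (OnePoint ℕ)) := by
  refine ⟨isClosed_singleton, ?_⟩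
  have : ({(k : OnePoint ℕ)} : Set (OnePoint ℕ)) = (↑) '' ({k} : Set ℕ) := by simp
  rw [this, OnePoint.isOpen_image_coe]
  exact isOpen_discrete _

/-- the indicator of the point `k` -/
noncomputable def e (k : ℕ) : E :=
  ⟨Set.indicator {(k : OnePoint ℕ)} (fun _ => (1 : ℝ)),
    (isClopen_single k).continuous_indicator continuous_const⟩

theorem e_apply (k : ℕ) (t : OnePoint ℕ) : e k t = if t = (k : OnePoint ℕ) then 1 else 0 := by
  show Set.indicator {(k : OnePoint ℕ)} (fun _ => (1 : ℝ)) t = _
  rw [Set.indicator_apply]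
  rfl

theorem e_infty (k : ℕ) : e k OnePoint.infty = 0 := by
  rw [e_apply, if_neg (OnePoint.infty_ne_coe k)]

theorem e_self (k : ℕ) : e k (k : OnePoint ℕ) = 1 := by
  rw [e_apply, if_pos rfl]

theorem S_e (k : ℕ) : S (e k) = (1 / 2 : ℝ) ^ (k + 1) := by
  unfold S
  rw [tsum_eq_single k]
  · rw [e_self, mul_one]
  · intro m hm
    rw [e_apply, if_neg, mul_zero]
    intro h
    exact hm (OnePoint.coe_injective h)

theorem S_one : S (1 : E) = 1 := by
  unfold S
  simp only [ContinuousMap.one_apply, mul_one]
  exact tsum_half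

universe u

/-- Every increasing net with a supremum converges in norm to the supremum. -/
theorem nets (J : Type u) [Preorder J] [IsDirectedOrder J] [Nonempty J] (x : J → E)
    (hx : ∀ i j, i ≤ j → x j - x i ∈ P) (σ : E) (hσ : IsSup P x σ) :
    Tendsto x atTop (𝓝 σ) := by
  -- `y j = σ - x j` decreases
  set y : J → E := fun j => σ - x j with hy
  have hypos : ∀ j, y j ∈ P := hσ.1
  have hyanti : Antitone y := by
    intro i j hij
    rw [ContinuousMap.le_def]
    intro t
    have := (hx i j hij).1 t
    simp only [ContinuousMap.sub_apply] at this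
    simp only [hy, ContinuousMap.sub_apply]
    linarith
  -- greatest lower bound property
  have hglb : ∀ v : E, (∀ j, y j - v ∈ P) → -v ∈ P := by
    intro v hv
    have h1 := hσ.2 (σ - v) (fun j => by
      have := hv j
      simp only [hy] at this
      rwa [show σ - v - x j = σ - x j - v by abel])
    rwa [show σ - v - σ = -v by abel] at h1
  have hinf : ∀ t, Tendsto (fun j => y j t) atTop (𝓝 (⨅ j, y j t)) := by
    intro t
    apply tendsto_atTop_ciInf
    · intro i j hij
      exact ContinuousMap.le_def.1 (hyanti hij) t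
    · exact ⟨0, by rintro _ ⟨j, rfl⟩; exact (hypos j).1 t⟩
  have hinf_le : ∀ t j, (⨅ j, y j t) ≤ y j t := fun t j =>
    ciInf_le ⟨0, by rintro _ ⟨j, rfl⟩; exact (hypos j).1 t⟩ j
  have hinf_nonneg : ∀ t, 0 ≤ ⨅ j, y j t := fun t => le_ciInf fun j => (hypos j).1 t
  have hz : ∀ k : ℕ, (⨅ j, y j (k : OnePoint ℕ)) = 0 := by
    intro k
    by_contra hne
    have hpos : 0 < ⨅ j, y j (k : OnePoint ℕ) := lt_of_le_of_ne (hinf_nonneg _) (Ne.symm hne)
    set δ := ⨅ j, y j (k : OnePoint ℕ) with hδ
    have h1 := hglb (δ • e k) (fun j => by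
      refine ⟨fun t => ?_, ?_⟩
      · simp only [ContinuousMap.sub_apply, ContinuousMap.smul_apply, smul_eq_mul, e_apply]
        split_ifs with h
        · subst h
          have := hinf_le (k : OnePoint ℕ) j
          linarith
        · have := (hypos j).1 t
          linarith
      · rw [S_sub, S_smul, S_e, ContinuousMap.sub_apply, ContinuousMap.smul_apply, e_infty,
          smul_zero, sub_zero]
        have h2 := (hypos j).2
        have h3 : 0 < δ * (1 / 2 : ℝ) ^ (k + 1) := by positivity
        linarith)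
    have h2 := h1.1 (k : OnePoint ℕ)
    simp only [ContinuousMap.neg_apply, ContinuousMap.smul_apply, smul_eq_mul, e_self] at h2
    linarith
  have hS : Tendsto (fun j => S (y j)) atTop (𝓝 0) := by
    obtain ⟨j₀⟩ := ‹Nonempty J›
    have h1 : Tendsto (fun j => ∑' k : ℕ, (1 / 2 : ℝ) ^ (k + 1) * y j (k : OnePoint ℕ)) atTop
        (𝓝 (∑' k : ℕ, (0 : ℝ))) := by
      apply tendsto_tsum_of_dominated_convergence
        (bound := fun k : ℕ => (1 / 2 : ℝ) ^ (k + 1) * ‖y j₀‖)
      · apply Summable.mul_right
        exact (summable_nat_add_iff 1).2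
          (summable_geometric_of_lt_one (by norm_num) (by norm_num : (1 / 2 : ℝ) < 1))
      · intro k
        have h2 := (hinf (k : OnePoint ℕ)).const_mul ((1 / 2 : ℝ) ^ (k + 1))
        rwa [hz k, mul_zero] at h2
      · filter_upwards [eventually_ge_atTop j₀] with j hj k
        rw [norm_mul, Real.norm_eq_abs, abs_of_pos (by positivity : (0 : ℝ) < (1 / 2) ^ (k + 1)),
          Real.norm_eq_abs, abs_of_nonneg ((hypos j).1 _)]
        gcongr
        calc y j (k : OnePoint ℕ) ≤ y j₀ (k : OnePoint ℕ) := ContinuousMap.le_def.1 (hyanti hj) _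
          _ ≤ ‖y j₀ (k : OnePoint ℕ)‖ := le_abs_self _
          _ ≤ ‖y j₀‖ := (y j₀).norm_coe_le_norm _
    rw [tsum_zero] at h1
    exact h1
  -- value at infinity
  have hzi : (⨅ j, y j OnePoint.infty) = 0 := by
    by_contra hne
    have hpos : 0 < ⨅ j, y j OnePoint.infty := lt_of_le_of_ne (hinf_nonneg _) (Ne.symm hne)
    set τ := ⨅ j, y j OnePoint.infty with hτ
    have hlow : ∀ j, 2 * τ ≤ 2 * y j OnePoint.infty - S (y j) := by
      intro j
      have h1 : Tendsto (fun j => 2 * y j OnePoint.infty - S (y j)) atTop (𝓝 (2 * τ - 0)) :=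
        ((hinf OnePoint.infty).const_mul 2).sub hS
      rw [sub_zero] at h1
      apply le_of_tendsto h1
      filter_upwards [eventually_ge_atTop j] with i hi
      have h2 := (hx j i hi).2
      have h3 : x i - x j = y j - y i := by simp only [hy]; abel
      rw [h3, S_sub, ContinuousMap.sub_apply] at h2
      linarith
    have h1 := hglb (-(τ • e 0)) (fun j => by
      refine ⟨fun t => ?_, ?_⟩
      · simp only [ContinuousMap.sub_apply, ContinuousMap.neg_apply, ContinuousMap.smul_apply,
          smul_eq_mul, e_apply]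
        have := (hypos j).1 t
        split_ifs <;> linarith
      · rw [S_sub, S_neg, S_smul, S_e, ContinuousMap.sub_apply, ContinuousMap.neg_apply,
          ContinuousMap.smul_apply, e_infty, smul_zero, neg_zero, sub_zero]
        have h2 := hlow j
        norm_num
        linarith)
    rw [neg_neg] at h1
    have h2 := h1.2
    rw [S_smul, S_e, ContinuousMap.smul_apply, e_infty, smul_zero, mul_zero] at h2
    norm_num at h2
    linarith
  have hy0 : Tendsto y atTop (𝓝 0) := by
    apply ContinuousMap.tendsto_of_antitone_of_pointwise hyanti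
    intro t
    have h1 := hinf t
    rw [ContinuousMap.zero_apply]
    induction t using OnePoint.rec with
    | infty => rwa [hzi] at h1
    | coe k => rwa [hz k] at h1
  have h3 : Tendsto (fun j => σ - y j) atTop (𝓝 (σ - 0)) := tendsto_const_nhds.sub hy0
  rw [sub_zero] at h3
  refine h3.congr fun j => ?_
  simp only [hy]
  abel

/-- the increments of the bounded divergent sequence -/
noncomputable def d (n : ℕ) : E := e n + ((1 / 2 : ℝ) ^ n) • (1 : E)

theorem d_mem (n : ℕ) : d n ∈ P := by
  refine ⟨fun t => ?_, ?_⟩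
  · simp only [d, ContinuousMap.add_apply, ContinuousMap.smul_apply, ContinuousMap.one_apply,
      smul_eq_mul, mul_one, e_apply]
    split_ifs <;> positivity
  · simp only [d]
    rw [S_add, S_smul, S_e, S_one, ContinuousMap.add_apply, e_infty, ContinuousMap.smul_apply,
      ContinuousMap.one_apply, smul_eq_mul, pow_succ]
    have : (0 : ℝ) < (1 / 2) ^ n := by positivity
    linarith

theorem e_sum_le (n : ℕ) (t : OnePoint ℕ) : ∑ k ∈ Finset.range n, e k t ≤ 1 := by
  induction t using OnePoint.rec with
  | infty => simp [e_infty]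
  | coe m =>
    calc ∑ k ∈ Finset.range n, e k (m : OnePoint ℕ)
        = ∑ k ∈ Finset.range n, if m = k then (1 : ℝ) else 0 := by
          apply Finset.sum_congr rfl
          intro k _
          rw [e_apply]
          simp
      _ ≤ 1 := by
          rw [Finset.sum_ite_eq]
          split_ifs <;> norm_num

theorem geom_le (n : ℕ) : ∑ k ∈ Finset.range n, (1 / 2 : ℝ) ^ k ≤ 2 := by
  have h := (summable_geometric_of_lt_one (by norm_num) (by norm_num : (1 / 2 : ℝ) < 1)).sum_le_tsum
    (Finset.range n) (fun k _ => by positivity)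
  rwa [tsum_geometric_two] at h

theorem S_sum (n : ℕ) : S (∑ k ∈ Finset.range n, d k) = ∑ k ∈ Finset.range n, S (d k) := by
  induction n with
  | zero => simpa using S_smul 0 0
  | succ n ih => rw [Finset.sum_range_succ, Finset.sum_range_succ, S_add, ih]

/-- There is a closed cone `C` in the Banach space of convergent real sequences such that every
increasing net with a supremum converges in norm to the supremum, while some increasing sequence
that is bounded above does not converge in norm. -/
theorem result : ∃ C : Set E, IsClosedCone C ∧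
    (∀ (J : Type u) [Preorder J] [IsDirectedOrder J] [Nonempty J] (x : J → E),
      (∀ i j, i ≤ j → x j - x i ∈ C) → ∀ σ : E, IsSup C x σ → Tendsto x atTop (𝓝 σ)) ∧
    ∃ x : ℕ → E, (∀ i j, i ≤ j → x j - x i ∈ C) ∧ (∃ u : E, ∀ n, u - x n ∈ C) ∧
      ¬ ∃ b : E, Tendsto x atTop (𝓝 b) := by
  refine ⟨P, isClosedCone_P, fun J _ _ _ x hx σ hσ => nets J x hx σ hσ,
    fun n => ∑ k ∈ Finset.range n, d k, ?_, ?_, ?_⟩
  · intro i j hij
    rw [← Finset.sum_sdiff_eq_sub (Finset.range_mono hij)]
    exact isClosedCone_P.sum_mem _ _ fun k _ => d_mem k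
  · refine ⟨(5 : ℝ) • (1 : E), fun n => ⟨fun t => ?_, ?_⟩⟩
    · simp only [ContinuousMap.sub_apply, ContinuousMap.smul_apply, ContinuousMap.one_apply,
        smul_eq_mul, mul_one, ContinuousMap.sum_apply, d, ContinuousMap.add_apply]
      rw [Finset.sum_add_distrib]
      have h1 := e_sum_le n t
      have h2 := geom_le n
      linarith
    · rw [S_sub, S_smul, S_one, S_sum]
      simp only [ContinuousMap.sub_apply, ContinuousMap.smul_apply, ContinuousMap.one_apply,
        smul_eq_mul, mul_one, ContinuousMap.sum_apply, d, ContinuousMap.add_apply, S_add, S_smul,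
        S_one, S_e, e_infty, zero_add]
      rw [Finset.sum_add_distrib]
      have h2 := geom_le n
      have h3 : 0 ≤ ∑ k ∈ Finset.range n, (1 / 2 : ℝ) ^ k :=
        Finset.sum_nonneg fun k _ => by positivity
      have h4 : 0 ≤ ∑ k ∈ Finset.range n, (1 / 2 : ℝ) ^ (k + 1) :=
        Finset.sum_nonneg fun k _ => by positivity
      linarith
  · rintro ⟨b, hb⟩
    have h1 := hb.cauchySeq
    rw [Metric.cauchySeq_iff'] at h1
    obtain ⟨N, hN⟩ := h1 1 one_pos
    have h2 := hN (N + 1) (Nat.le_succ N)
    rw [dist_eq_norm, Finset.sum_range_succ, add_sub_cancel_left] at h2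
    have h3 : (1 : ℝ) ≤ ‖d N‖ := by
      have h4 := (d N).norm_coe_le_norm (N : OnePoint ℕ)
      refine le_trans ?_ h4
      refine le_trans ?_ (le_abs_self _)
      simp only [d, ContinuousMap.add_apply, ContinuousMap.smul_apply, ContinuousMap.one_apply,
        smul_eq_mul, mul_one, e_self]
      have : (0 : ℝ) < (1 / 2) ^ N := by positivity
      linarith
    linarith

end Pool.Agent.Results.MP_5ab9c0_an.SupremaConverge
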